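import Mathlib
import Pool.Agent.Helper702.PmK

set_option autoImplicit false

/-!
# The universal theory of a partially commutative metabelian group need not be decidable

For the path `Γ` on five vertices the universal theory of `S_Γ` is undecidable.
-/

open scoped commutatorElement

namespace Pool.Agent.Results.MP_4f8676_lc.UniversalTheoryUndecidable

open FirstOrder FirstOrder.Language

/-! ### The groups -/

/-- The free metabelian group on `V`: the free group modulo its second derived subgroup
(`derivedSeries G 2` is `⁅⁅G, G⁆, ⁅G, G⁆⁆`). -/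
abbrev FreeMetabelian (V : Type) : Type := FreeGroup V ⧸ derivedSeries (FreeGroup V) 2

/-- The generator of the free metabelian group with index `v`. -/
def of {V : Type} (v : V) : FreeMetabelian V := QuotientGroup.mk (FreeGroup.of v)

/-- The partially commutative metabelian group `S_Γ` of a simple graph `Γ`: the free metabelian
group on the vertices modulo the normal closure of the commutators of adjacent generators. -/
abbrev PCM {V : Type} (Γ : SimpleGraph V) : Type :=
  FreeMetabelian V ⧸ Subgroup.normalClosure
    {g : FreeMetabelian V | ∃ i j : V, Γ.Adj i j ∧ g = of i * of j * (of i)⁻¹ * (of j)⁻¹}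

/-! ### First-order sentences in the language of groups -/

/-- The function symbols `1` (constant), `⁻¹` (unary), `·` (binary). -/
inductive Sym : ℕ → Type
  | one : Sym 0
  | inv : Sym 1
  | mul : Sym 2

/-- The language of groups `{·, ⁻¹, 1}`; it has no relation symbols besides equality. -/
def Lgrp : Language := ⟨Sym, fun _ => Empty⟩

/-- Every group is a structure for the language of groups. -/
instance (G : Type) [Group G] : Lgrp.Structure G where
  funMap := fun {n} (f : Sym n) => match n, f with
    | _, .one => fun _ => 1
    | _, .inv => fun v => (v 0)⁻¹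
    | _, .mul => fun v => v 0 * v 1
  RelMap := fun {_} r => Empty.elim r

/-- Gödel number of a term. -/
def termCode {k : ℕ} : Lgrp.Term (Empty ⊕ Fin k) → ℕ
  | .var (.inr i) => Nat.pair 0 i
  | .func Sym.one _ => Nat.pair 1 0
  | .func Sym.inv ts => Nat.pair 2 (termCode (ts 0))
  | .func Sym.mul ts => Nat.pair 3 (Nat.pair (termCode (ts 0)) (termCode (ts 1)))

/-- Gödel number of a formula (of a sentence when `k = 0`). -/
def code : {k : ℕ} → Lgrp.BoundedFormula Empty k → ℕ
  | _, .falsum => Nat.pair 0 0
  | _, .equal t₁ t₂ => Nat.pair 1 (Nat.pair (termCode t₁) (termCode t₂))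
  | _, .imp φ ψ => Nat.pair 2 (Nat.pair (code φ) (code ψ))
  | _, .all φ => Nat.pair 3 (code φ)

/-- The universal theory of `G` is decidable: there is a computable function on Gödel numbers that
tells for every universal sentence (a sentence `∀ y₁ ⋯ ∀ yₘ, φ` with `φ` quantifier-free) whether it
holds in `G`. -/
def UniversalTheoryDecidable (G : Type) [Group G] : Prop :=
  ∃ f : ℕ → Bool, Computable f ∧
    ∀ φ : Lgrp.Sentence, φ.IsUniversal → (f (code φ) = true ↔ G ⊨ φ)

/-! ### Sanity checks: the Gödel numbering is injective -/

theorem termCode_injective {k : ℕ} (s t : Lgrp.Term (Empty ⊕ Fin k))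
    (h : termCode s = termCode t) : s = t := by
  induction s generalizing t with
  | var x =>
    rcases x with x | i
    · exact x.elim
    · cases t with
      | var y =>
        rcases y with y | j
        · exact y.elim
        · simp only [termCode, Nat.pair_eq_pair] at h
          rw [Fin.ext h.2]
      | func g us =>
        cases g <;> simp [termCode, Nat.pair_eq_pair] at h
  | func f ts ih =>
    cases t with
    | var y =>
      rcases y with y | j
      · exact y.elim
      · cases f <;> simp [termCode, Nat.pair_eq_pair] at h
    | func g us =>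
      cases f <;> cases g <;> simp only [termCode, Nat.pair_eq_pair, false_and, true_and, OfNat.one_ne_ofNat,
        OfNat.ofNat_ne_one, Nat.reduceEqDiff] at h
      · congr 1; exact Subsingleton.elim _ _
      · congr 1
        funext i
        fin_cases i
        exact ih 0 _ h
      · congr 1
        funext i
        fin_cases i
        · exact ih 0 _ h.1
        · exact ih 1 _ h.2

theorem code_injective {k : ℕ} (φ ψ : Lgrp.BoundedFormula Empty k) (h : code φ = code ψ) :
    φ = ψ := by
  induction φ with
  | falsum =>
    cases ψ with
    | falsum => rfl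
    | equal a b => simp [code, Nat.pair_eq_pair] at h
    | rel r a => exact Empty.elim r
    | imp a b => simp [code, Nat.pair_eq_pair] at h
    | all a => simp [code, Nat.pair_eq_pair] at h
  | equal a b =>
    cases ψ with
    | falsum => simp [code, Nat.pair_eq_pair] at h
    | equal c d =>
      simp only [code, Nat.pair_eq_pair, true_and] at h
      rw [termCode_injective _ _ h.1, termCode_injective _ _ h.2]
    | rel r a => exact Empty.elim r
    | imp a b => simp [code, Nat.pair_eq_pair] at h
    | all a => simp [code, Nat.pair_eq_pair] at h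
  | rel r a => exact Empty.elim r
  | imp a b iha ihb =>
    cases ψ with
    | falsum => simp [code, Nat.pair_eq_pair] at h
    | equal c d => simp [code, Nat.pair_eq_pair] at h
    | rel r a => exact Empty.elim r
    | imp c d =>
      simp only [code, Nat.pair_eq_pair, true_and] at h
      rw [iha _ h.1, ihb _ h.2]
    | all a => simp [code, Nat.pair_eq_pair] at h
  | all a iha =>
    cases ψ with
    | falsum => simp [code, Nat.pair_eq_pair] at h
    | equal c d => simp [code, Nat.pair_eq_pair] at h
    | rel r a => exact Empty.elim r
    | imp c d => simp [code, Nat.pair_eq_pair] at h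
    | all c =>
      simp only [code, Nat.pair_eq_pair, true_and] at h
      rw [iha _ h]

/-! ### The proof -/

open Pool.Agent.Helper702 (Pm.Ex Pm.Lit Pm.Sat)
open Pool.Agent.Helper702.Pm (Ex Lit Sat Vr sysL vz vy gates_fin haltSet haltSet_re
  haltSet_not_computable sys_iff)

/-- translation of expressions to terms -/
def toTerm {α : Type} {k : ℕ} (f : α → Fin k) : Ex α → Lgrp.Term (Empty ⊕ Fin k)
  | .var a => Term.var (Sum.inr (f a))
  | .one => Term.func (Sym.one : Lgrp.Functions 0) ![]
  | .inv s => Term.func (Sym.inv : Lgrp.Functions 1) ![toTerm f s]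
  | .mul s t => Term.func (Sym.mul : Lgrp.Functions 2) ![toTerm f s, toTerm f t]

lemma realize_toTerm {α : Type} {k : ℕ} (f : α → Fin k) {G : Type} [Group G] (x : Fin k → G)
    (v : Empty → G) (s : Ex α) : (toTerm f s).realize (Sum.elim v x) = s.eval (x ∘ f) := by
  induction s with
  | var a => rfl
  | one => rfl
  | inv s ih =>
    change ((toTerm f s).realize (Sum.elim v x))⁻¹ = _
    rw [ih]; rfl
  | mul s t ihs iht =>
    change (toTerm f s).realize (Sum.elim v x) * (toTerm f t).realize (Sum.elim v x) = _
    rw [ihs, iht]; rfl

/-- translation of literals to formulas -/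
def toForm {α : Type} {k : ℕ} (f : α → Fin k) (l : Lit α) : Lgrp.BoundedFormula Empty k :=
  if l.1 then .equal (toTerm f l.2.1) (toTerm f l.2.2)
  else .imp (.equal (toTerm f l.2.1) (toTerm f l.2.2)) .falsum

lemma realize_toForm {α : Type} {k : ℕ} (f : α → Fin k) {G : Type} [Group G] (x : Fin k → G)
    (v : Empty → G) (l : Lit α) : (toForm f l).Realize v x ↔ Sat (x ∘ f) l := by
  obtain ⟨b, s, t⟩ := l
  unfold toForm Sat
  cases b with
  | true =>
    change (toTerm f s).realize (Sum.elim v x) = (toTerm f t).realize (Sum.elim v x) ↔
      s.eval (x ∘ f) = t.eval (x ∘ f)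
    rw [realize_toTerm, realize_toTerm]
  | false =>
    change ¬ ((toTerm f s).realize (Sum.elim v x) = (toTerm f t).realize (Sum.elim v x)) ↔
      s.eval (x ∘ f) ≠ t.eval (x ∘ f)
    rw [realize_toTerm, realize_toTerm]

lemma isQF_toForm {α : Type} {k : ℕ} (f : α → Fin k) (l : Lit α) : (toForm f l).IsQF := by
  unfold toForm
  split_ifs
  · exact (BoundedFormula.IsAtomic.equal _ _).isQF
  · exact ((BoundedFormula.IsAtomic.equal _ _).isQF).imp BoundedFormula.isQF_bot

/-- the formula stating that not all literals hold -/
def body {α : Type} {k : ℕ} (f : α → Fin k) (l0 : Lit α) : List (Lit α) → Lgrp.BoundedFormula Empty k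
  | [] => .imp (toForm f l0) .falsum
  | l :: ls => .imp (toForm f l) (body f l0 ls)

lemma realize_body {α : Type} {k : ℕ} (f : α → Fin k) {G : Type} [Group G] (x : Fin k → G)
    (v : Empty → G) (l0 : Lit α) (ls : List (Lit α)) :
    (body f l0 ls).Realize v x ↔ ¬ ((∀ l ∈ ls, Sat (x ∘ f) l) ∧ Sat (x ∘ f) l0) := by
  induction ls with
  | nil =>
    change ((toForm f l0).Realize v x → False) ↔ _
    rw [realize_toForm]
    simp
  | cons l ls ih =>
    change ((toForm f l).Realize v x → (body f l0 ls).Realize v x) ↔ _
    rw [realize_toForm, ih]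
    simp only [List.forall_mem_cons]
    tauto

lemma isQF_body {α : Type} {k : ℕ} (f : α → Fin k) (l0 : Lit α) (ls : List (Lit α)) :
    (body f l0 ls).IsQF := by
  induction ls with
  | nil => exact (isQF_toForm f l0).imp BoundedFormula.isQF_bot
  | cons l ls ih => exact (isQF_toForm f l).imp ih

lemma isUniversal_alls {k : ℕ} (φ : Lgrp.BoundedFormula Empty k) (h : φ.IsUniversal) :
    (φ.alls : Lgrp.Sentence).IsUniversal := by
  induction k with
  | zero => exact h
  | succ k ih => exact ih φ.all h.all

lemma code_alls {k : ℕ} (φ : Lgrp.BoundedFormula Empty k) :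
    code (φ.alls : Lgrp.Sentence) = (fun c => Nat.pair 3 c)^[k] (code φ) := by
  induction k with
  | zero => rfl
  | succ k ih =>
    change code (φ.all.alls) = _
    rw [ih φ.all, Function.iterate_succ_apply]
    rfl

lemma computable_iter (k : ℕ) : Computable (fun c : ℕ => (fun c => Nat.pair 3 c)^[k] c) := by
  induction k with
  | zero => exact Computable.id
  | succ k ih =>
    have h1 : Computable (fun c : ℕ => Nat.pair 3 c) :=
      (Primrec₂.natPair.comp (Primrec.const 3) Primrec.id).to_comp
    exact ih.comp h1

/-- computability of the code of the body -/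
lemma computable_body {α : Type} {k : ℕ} (f : α → Fin k) (l0 : ℕ → Lit α) (ls : List (Lit α))
    (h0 : Computable fun n => code (toForm f (l0 n))) :
    Computable fun n => code (body f (l0 n) ls) := by
  induction ls with
  | nil =>
    change Computable fun n => Nat.pair 2 (Nat.pair (code (toForm f (l0 n))) (Nat.pair 0 0))
    exact Primrec₂.natPair.to_comp.comp (Computable.const 2)
      (Primrec₂.natPair.to_comp.comp h0 (Computable.const _))
  | cons l ls ih =>
    change Computable fun n => Nat.pair 2 (Nat.pair (code (toForm f l)) (code (body f (l0 n) ls)))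
    exact Primrec₂.natPair.to_comp.comp (Computable.const 2)
      (Primrec₂.natPair.to_comp.comp (Computable.const _) ih)

lemma computable_npw {α : Type} {k : ℕ} (f : α → Fin k) (s : Ex α) :
    Computable fun n => termCode (toTerm f (Ex.npw s n)) := by
  have h1 : Primrec₂ (fun (_ : ℕ) (p : ℕ × ℕ) => Nat.pair 3 (Nat.pair p.2 (termCode (toTerm f s)))) := by
    refine Primrec₂.natPair.comp (Primrec.const 3) (Primrec₂.natPair.comp ?_ (Primrec.const _))
    exact Primrec.snd.comp Primrec.snd
  have h2 : Primrec (fun n : ℕ => Nat.rec (motive := fun _ => ℕ) (termCode (toTerm f (Ex.npw s 0)))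
      (fun y IH => Nat.pair 3 (Nat.pair IH (termCode (toTerm f s)))) n) :=
    Primrec.nat_rec' Primrec.id (Primrec.const _) h1
  refine h2.to_comp.of_eq fun n => ?_
  induction n with
  | zero => rfl
  | succ n ih =>
    change Nat.pair 3 (Nat.pair _ (termCode (toTerm f s))) = _
    rw [ih]
    rfl

theorem main : ¬ UniversalTheoryDecidable (Pool.Agent.Helper702.Pm.PCM Pool.Agent.Helper702.Pm.P5) := by
  rintro ⟨g, hg, hgs⟩
  obtain ⟨M, Γ, p, hΓ⟩ := gates_fin haltSet_re
  let k := Fintype.card (Vr (Fin M))
  let f : Vr (Fin M) → Fin k := Fintype.equivFin (Vr (Fin M))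
  let ls := sysL (List.finRange M) Γ
  let l0 : ℕ → Lit (Vr (Fin M)) := fun n => (true, vz p, .npw (vy 1) n)
  let sen : ℕ → Lgrp.Sentence := fun n => (body f (l0 n) ls).alls
  have h1 : ∀ n, (Pool.Agent.Helper702.Pm.PCM Pool.Agent.Helper702.Pm.P5 ⊨ sen n) ↔ ¬ haltSet n := by
    intro n
    obtain ⟨v0, h2⟩ : ∃ v0 : Empty → Pool.Agent.Helper702.Pm.PCM Pool.Agent.Helper702.Pm.P5,
        (Pool.Agent.Helper702.Pm.PCM Pool.Agent.Helper702.Pm.P5 ⊨ sen n) ↔
        ∀ x : Fin k → Pool.Agent.Helper702.Pm.PCM Pool.Agent.Helper702.Pm.P5,
          (body f (l0 n) ls).Realize v0 x := ⟨_, BoundedFormula.realize_alls⟩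
    have h3 := sys_iff (List.finRange M) List.mem_finRange Γ p n
    rw [h2, hΓ n, ← h3, not_exists]
    constructor
    · intro h a ha
      have h4 := h (a ∘ (Fintype.equivFin (Vr (Fin M))).symm)
      rw [realize_body] at h4
      have h5 : (a ∘ (Fintype.equivFin (Vr (Fin M))).symm) ∘ f = a := by
        funext i
        simp [f]
      rw [h5] at h4
      exact h4 ha
    · intro h x
      rw [realize_body]
      exact h _
  have h2 : Computable fun n => code (sen n) := by
    have h3 : Computable fun n => code (toForm f (l0 n)) := by
      change Computable fun n => Nat.pair 1 (Nat.pair (termCode (toTerm f (vz p))) (termCode (toTerm f (.npw (vy 1) n))))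
      exact Primrec₂.natPair.to_comp.comp (Computable.const 1)
        (Primrec₂.natPair.to_comp.comp (Computable.const _) (computable_npw f _))
    have h4 := (computable_iter k).comp (computable_body f l0 ls h3)
    refine h4.of_eq fun n => ?_
    rw [code_alls]
  apply haltSet_not_computable
  refine ⟨fun n => Classical.dec _, ?_⟩
  have h5 : Computable fun n => !(g (code (sen n))) :=
    Primrec.not.to_comp.comp (hg.comp h2)
  refine h5.of_eq fun n => ?_
  have h6 := hgs (sen n) (isUniversal_alls _ (isQF_body f (l0 n) ls).isUniversal)
  rw [h1] at h6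
  by_cases h7 : haltSet n
  · have h8 : g (code (sen n)) = false := by
      rw [Bool.eq_false_iff]
      intro h
      exact (h6.1 h) h7
    simp [h8, h7]
  · have h8 : g (code (sen n)) = true := h6.2 h7
    simp [h8, h7]

/-- **The universal theory of the partially commutative metabelian group of the path on five vertices
is undecidable.** -/
theorem result : ¬ UniversalTheoryDecidable (PCM (SimpleGraph.pathGraph 5)) := main

end Pool.Agent.Results.MP_4f8676_lc.UniversalTheoryUndecidable
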